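import Pool.Agent.Helper97_WHC.StmtB
import Pool.Agent.Helper97_WHT.MEA

/-!
# Squad WHC, row ADK: the adjoint, the composition and the linearity of the Hecke operators
-/

set_option autoImplicit false

open scoped BigOperators

namespace Pool.Agent.WHC.H92

open Pool.Agent.DEN Pool.Agent.TMP Pool.Agent.WHT

theorem sup_fin {r : ℕ} {C : Matrix (Fin r) (Fin r) ℤ} {K : Type} [Field K]
    {k : XX C K → XX C K → ℂ} (hk : IsKer k) (x : XX C K) (f : XX C K → ℂ) :
    (Function.support fun y => k x y * f y).Finite :=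
  (hk.fin x).subset fun _ hy => left_ne_zero_of_mul hy

theorem adk : AdkStmt := by
  intro r C hC K _ _ N hN k hk
  have hst : ∀ x : XX C K, Finite (MulAction.stabilizer (cong C K 1 N) x) :=
    (H22.hFin r C hC K).2.1 N
  have hks := (hKer r C hC K).2.2.1 k hk
  refine ⟨?_, ?_, ?_, ?_, ?_, ?_⟩
  · intro f g hf hg
    have hfPV : H6.PV (cong C K 1 N) f := ⟨hf.1, H22.hFsp r C hC K N hN f hf⟩
    have hgPV : H6.PV (cong C K 1 N) g := ⟨hg.1, H22.hFsp r C hC K N hN g hg⟩
    have h1 := H6.kop_adj hst (WHT.H97.good_fk hC hk) hfPV hgPV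
    rw [WHT.H97.star_fk hC hk, WHT.H97.kop_TT hC hk, WHT.H97.kop_TT hC hks] at h1
    exact h1
  · intro k' hk' f
    exact WHT.H97.TT_comp hk hk' f
  · intro f g
    funext x
    show ∑ᶠ y, k x y * (f y + g y) = (∑ᶠ y, k x y * f y) + ∑ᶠ y, k x y * g y
    rw [← finsum_add_distrib (sup_fin hk x f) (sup_fin hk x g)]
    exact finsum_congr fun y => mul_add _ _ _
  · intro c f
    funext x
    show ∑ᶠ y, k x y * (c * f y) = c * ∑ᶠ y, k x y * f y
    rw [mul_finsum]
    exact finsum_congr fun y => by ring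
  · intro k' hk' f
    funext x
    show ∑ᶠ y, (k x y + k' x y) * f y = (∑ᶠ y, k x y * f y) + ∑ᶠ y, k' x y * f y
    rw [← finsum_add_distrib (sup_fin hk x f) (sup_fin hk' x f)]
    exact finsum_congr fun y => add_mul _ _ _
  · intro c f
    funext x
    show ∑ᶠ y, (c * k x y) * f y = c * ∑ᶠ y, k x y * f y
    rw [mul_finsum]
    exact finsum_congr fun y => by ring

end Pool.Agent.WHC.H92
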